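import Pool.Agent.Q260.DJ.Bk

/-! # Job BD-JI of helper260 (proved by helper277) -/

set_option autoImplicit false

namespace Pool.Agent.Q277.BD

open Complex Filter Topology Metric Set
open Pool.Agent.Q260.DJ
open Pool.Agent.H24R2.JP (HH XX FF gam Om)

theorem t_JI (h1 : S_C0) (h2 : S_CD) (h3 : S_JV) : S_JI := by
  have hcl : ∀ l : List Bool, Cl (It l) := by
    intro l
    induction l with
    | nil => exact h1
    | cons b l ih => exact h2 b _ ih
  intro l ε hε
  induction l with
  | nil =>
    refine ⟨ε, 1, 3, hε, le_rfl, le_rfl, fun T θ hT hθ hU => ?_⟩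
    exact hU T le_rfl (by linarith [Real.log_nonneg (show (1 : ℝ) ≤ T by linarith)])
  | cons b l ih =>
    obtain ⟨e1, C1, T1, he1, hC1, hT1, H1⟩ := ih
    obtain ⟨C2, T2, hC2, hT2, H2⟩ := h3 b (It l) (hcl l) (hcl (b :: l)) (e1 / 3) (by positivity)
    refine ⟨e1 / 3, C1 + 2 * C2, max (max T1 T2) (1 + C1), by positivity, by linarith,
      hT1.trans ((le_max_left _ _).trans (le_max_left _ _)), fun T θ hT hθ hU => ?_⟩
    have a1 : T1 ≤ T := ((le_max_left _ _).trans (le_max_left _ _)).trans hT
    have a2 : T2 ≤ T := ((le_max_right _ _).trans (le_max_left _ _)).trans hT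
    have a3 : 1 + C1 ≤ T := (le_max_right _ _).trans hT
    have a4 : 0 ≤ Real.log T := Real.log_nonneg (by linarith)
    have a5 : Real.log T ≤ T := (Real.log_le_sub_one_of_pos (by linarith)).trans (by linarith)
    refine H1 T θ a1 hθ fun y hy1 hy2 => ?_
    have b1 : Real.log y ≤ 2 * Real.log T := by
      have c1 : y ≤ T * T := by nlinarith
      have c2 := Real.log_le_log (by linarith : 0 < y) c1
      rw [Real.log_mul (by linarith) (by linarith)] at c2
      linarith
    have key := H2 y θ (by linarith) hθ fun y' g1 g2 => hU y' (by linarith) (by nlinarith)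
    have e3 : 3 * (e1 / 3) = e1 := by ring
    rwa [e3] at key

end Pool.Agent.Q277.BD
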