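import Pool.Agent.Q260.DS.Stm5
import Pool.Agent.Q150.DS.Com

/-! # Job BD-UI of helper260 (proved by helper277) -/

set_option autoImplicit false

namespace Pool.Agent.Q277.BD

open Complex Filter Topology Metric Set
open Pool.Agent.Q260.DS Pool.Agent.Q150.DS

lemma log_small {K C : ℝ} (hK : 0 ≤ K) (hC : 0 ≤ C) : ∃ L0 : ℝ, 1 ≤ L0 ∧ ∀ L : ℝ, L0 ≤ L →
    K * Real.log (2 + C * L) ≤ L / 2 := by
  have h2 : Tendsto (fun x : ℝ => Real.log x / x) atTop (𝓝 0) :=
    Real.isLittleO_log_id_atTop.tendsto_div_nhds_zero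
  have h5 := h2.eventually (gt_mem_nhds (show (0 : ℝ) < 1 / (2 * (K + 1) * (C + 2)) by positivity))
  obtain ⟨L1, hL1⟩ := eventually_atTop.1 h5
  refine ⟨max 1 L1, le_max_left _ _, fun L hL => ?_⟩
  have b1 : 1 ≤ L := (le_max_left _ _).trans hL
  have b2 : L1 ≤ L := (le_max_right _ _).trans hL
  have b3 : (0 : ℝ) < (C + 2) * L := by nlinarith
  have b4 := hL1 ((C + 2) * L) (by nlinarith)
  rw [div_lt_div_iff₀ b3 (by positivity), one_mul] at b4
  have b5 : Real.log (2 + C * L) ≤ Real.log ((C + 2) * L) :=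
    Real.log_le_log (by nlinarith) (by nlinarith)
  have b6 : 0 ≤ Real.log (2 + C * L) := Real.log_nonneg (by nlinarith)
  have b7 : Real.log (2 + C * L) * (2 * (K + 1)) ≤ L := by
    have : Real.log (2 + C * L) * (2 * (K + 1)) * (C + 2) ≤ L * (C + 2) := by
      calc Real.log (2 + C * L) * (2 * (K + 1)) * (C + 2)
          ≤ Real.log ((C + 2) * L) * (2 * (K + 1)) * (C + 2) := by gcongr
        _ = Real.log ((C + 2) * L) * (2 * (K + 1) * (C + 2)) := by ring
        _ ≤ (C + 2) * L := b4.le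
        _ = L * (C + 2) := by ring
    exact le_of_mul_le_mul_right this (by linarith)
  nlinarith

theorem t_UI (h : S_VU) : S_UI := by
  intro K A ε k hK hA hε
  induction k with
  | zero =>
    refine ⟨ε, 1, hε, le_rfl, fun y0 f l g hS cs hcs T θ hT hl hθ hU => ?_⟩
    have hc := li_zero hcs
    subst hc
    exact hU T le_rfl (by linarith)
  | succ k ih =>
    obtain ⟨e1, C1, he1, hC1, H1⟩ := ih
    obtain ⟨C2, hC2, H2⟩ := h K A (e1 / 3) k hK hA (by positivity)
    obtain ⟨L0, hL0, HL⟩ := log_small (K := K) (C := C1) (by linarith) (by linarith)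
    refine ⟨e1 / 3, 2 * (C1 + 2 * C2 + L0), by positivity, by linarith,
      fun y0 f l g hS cs hcs T θ hT hl hθ hU => ?_⟩
    obtain ⟨c, cs', rfl, hc, hcs'⟩ := li_cons hcs
    have hlT : 1 ≤ l T := by linarith
    refine H1 y0 f l g hS cs' hcs' T θ hT (by linarith) hθ fun y hy1 hy2 => ?_
    have hsh := hS.shift T (y - T)
    rw [add_sub_cancel] at hsh
    have g1 : |y - T| ≤ C1 * l T := by rw [abs_le]; constructor <;> linarith
    have g2 : K * Real.log (2 + |y - T|) ≤ K * Real.log (2 + C1 * l T) :=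
      mul_le_mul_of_nonneg_left (Real.log_le_log (by positivity) (by linarith)) (by linarith)
    have g3 := HL (l T) (by linarith)
    have g4 := abs_le.1 hsh
    have g5 : l T / 2 ≤ l y := by linarith [g4.1]
    have g6 : l y ≤ 2 * l T := by linarith [g4.2]
    have key := H2 y0 f l g hS c cs' hc hcs' y θ (by linarith) (by linarith) hθ
      fun y' h1 h2 => hU y' (by linarith) (by nlinarith)
    have e3 : 3 * (e1 / 3) = e1 := by ring
    rwa [e3] at key

end Pool.Agent.Q277.BD
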